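import Pool.Agent.Q43.FC.Stmt

/-!
# Frobenius closure of parameter ideals (MP_a7bda3_al, Q1)

Definitions (files `Pool/Agent/Q43/FC/Defs.lean`, `Exact.lean`, `Top.lean`, `Stmt.lean`), for a sequence
`x : Fin d → R`:

* `Loc x S` is the localization of `R` at `∏ k ∈ S, x k`; the Cech complex of `x` has in degree `i` the
  families `(c S)`, `c S ∈ Loc x S`, `S` of size `i`, and the usual alternating differential;
* `cohLength x i` is the length of its `i`-th cohomology module. When `x` is a system of parameters of
  the local ring `R`, this module is the local cohomology module `H^i_m(R)`;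
* the Frobenius action is induced by the `p`-th power on all the components of the cochains;
  `nilLength p x i` is the length of the nilpotent part `0^F` of `H^i_m(R)`;
* `closureLength p q` is the length of `q^F / q`, `q^F` the Frobenius closure of the ideal `q`.
-/

set_option autoImplicit false

namespace Pool.Agent.Results.MP_a7bda3_al.FrobeniusClosure

open IsLocalRing Q43.FC

/-- The answer to Q1 is yes: for a Noetherian generalized Cohen-Macaulay local ring `R` of prime
characteristic `p` and dimension `d`, and for every system of parameters `x`, with `q = (x)`,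
`ℓ(q^F / q) ≤ ∑ i ≤ d, (d choose i) ℓ(0^F of H^i_m(R))`. Excellence and `F`-injectivity on the
punctured spectrum are not needed. -/
theorem result {R : Type*} [CommRing R] [IsLocalRing R] [IsNoetherianRing R]
    (p : ℕ) [Fact p.Prime] [CharP R p] {d : ℕ} (_hd : ringKrullDim R = d)
    (x : Fin d → R) (hx : (Ideal.span (Set.range x)).radical = maximalIdeal R)
    (hCM : ∀ i < d, cohLength x i ≠ ⊤) :
    closureLength p (Ideal.span (Set.range x)) ≤
      ∑ i ∈ Finset.range (d + 1), (d.choose i : ℕ∞) * nilLength p x i := by
  apply main p _ hCM
  intro k
  rw [← hx]
  exact Ideal.le_radical (Ideal.subset_span ⟨k, rfl⟩)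

end Pool.Agent.Results.MP_a7bda3_al.FrobeniusClosure
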